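import Mathlib
import Pool.Agent.Q1.CD.Alg

/-!
# Almost every `D` has multiples `D m_k` in every given sequence for which `X³ + Y³ = A` is solved

The algorithm `answer` (primitive recursive, `Pool/Agent/Q1/CD/Defs.lean`): for a nonzero integer `A` let
`n` be the cube-free part of `|A|`. If `n` is a base number (prime to `3`, not `±1` modulo `9`, exactly one
prime divisor `2` modulo `3`), count the decompositions `n = d₀ d₁ d₂` in coprime factors such that
`d₁ d₂²`, `d₂ d₀²`, `d₀ d₁²` are cubes modulo the primes dividing `d₀`, `d₁`, `d₂`; there are `3 ^ (r + 1)`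
of them, and the output is `2 r`. For other numbers `A` there is no output. `A` is SOLVED if the output is
`0`; then every rational solution of `X³ + Y³ = A` has `X = Y`: the group `C_A(ℚ)` is trivial (generated by
the empty set), or `A = 2 b³` and `C_A(ℚ) = {𝒪, (b, b)}` (generated by `(b, b)`).

Let `m_0, m_1, m_2, …` be ANY infinite sequence of different squarefree numbers, `1` modulo `9`, with all
prime divisors `1` modulo `3` (for example of primes `1` modulo `9`). Let `D` run through all squarefree
base numbers, ordered by size (at least `a X / sqrt (log X)` of them up to `X`).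

* For every `n` the number of the `k < n` for which `D m_k` is solved has asymptotically the binomial
  distribution with parameters `n` and `c = ∏_{i ≥ 1} (1 - 3^{-i})`, `0.56 < c < 0.5602`.
* For every `n` and `ε > 0` the set of the `D` for which the frequency of the solved numbers among
  `D m_0, …, D m_{n-1}` differs from `c` by at least `ε` has a relative density, which is at most
  `2 exp (- ε² n / 4)`.
* For every `N`, for `100 %` of the `D` at least `N` of the numbers `D m_0, D m_1, D m_2, …` are solved.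
-/

set_option autoImplicit false

open scoped Classical

namespace Pool.Agent.Results.MP_8e0b0b_nt.EverySequenceOfMultipliers

open Filter
open Pool.Agent.Q1.CD

/-- the multipliers: different squarefree numbers, `1` modulo `9`, all prime divisors `1` modulo `3` -/
structure Multipliers (m : ℕ → ℕ) : Prop where
  inj : Function.Injective m
  sqf : ∀ k, Squarefree (m k)
  nine : ∀ k, m k % 9 = 1
  one : ∀ (k p : ℕ), p.Prime → p ∣ m k → p % 3 = 1

/-- the algorithm solves `X³ + Y³ = n` -/
def Solved (n : ℕ) : Prop := answer (n : ℤ) = some 0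

/-- the number of the squarefree base numbers `D ≤ X` with the property `P` -/
noncomputable def count (P : ℕ → Prop) (X : ℕ) : ℕ :=
  ((Finset.Icc 1 X).filter fun D => Squarefree D ∧ IsBase D ∧ P D).card

/-- the proportion of the squarefree base numbers `D ≤ X` with the property `P` -/
noncomputable def proportion (P : ℕ → Prop) (X : ℕ) : ℝ :=
  (count P X : ℝ) / (count (fun _ => True) X : ℝ)

/-- the number of the `k < n` for which `D m_k` is solved -/
noncomputable def solvedCount (m : ℕ → ℕ) (n D : ℕ) : ℕ :=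
  ((Finset.range n).filter fun k => Solved (D * m k)).card

/-- `c = ∏_{i ≥ 1} (1 - 3^{-i})` -/
noncomputable def c : ℝ := ∏' i : ℕ, (1 - (1 / 3 : ℝ) ^ (i + 1))

theorem seq {m : ℕ → ℕ} (h : Multipliers m) : Q283.Q3N.Seq m where
  inj := h.inj
  adm k := ⟨h.nine k, fun p hp hd => ⟨h.one k p hp hd, fun h3 => by
    have h6 : p * p ∣ m k := (Dvd.intro p (by ring)).trans h3
    exact hp.one_lt.ne' (Nat.isUnit_iff.1 (h.sqf k p h6))⟩⟩
  sqf := h.sqf

/-- translation of the proportions -/
theorem prop_eq (P Q : ℕ → Prop) (h : ∀ D, Squarefree D → Pool.Agent.Y703.CT.Cls D → (Q D ↔ P D))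
    (X : ℕ) :
    (((Q283.Q3N.SN X).filter fun D => Q D).card : ℝ) / ((Q283.Q3N.SN X).card : ℝ) =
      proportion P X := by
  unfold proportion count Q283.Q3N.SN
  rw [Finset.filter_filter]
  congr 2
  · refine Pool.Agent.XLK.fcc fun D _ => ?_
    rw [base_iff, ← and_assoc]
    exact and_congr_right fun hD => h D hD.1 hD.2
  · refine Pool.Agent.XLK.fcc fun D _ => ?_
    rw [base_iff]
    exact ⟨fun h => ⟨h.1, h.2, trivial⟩, fun h => ⟨h.1, h.2.1⟩⟩

theorem solved_iff {n : ℕ} (hC : Pool.Agent.Y703.CT.Cls n) :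
    Pool.Agent.Y703.CT.NoSplit n ↔ Solved n := by
  rw [← Q283.Q3N.triv_iff hC, ← good_iff, ← rr_zero hC]
  unfold Solved
  rw [answer_nat hC]
  constructor
  · intro h
    rw [h]
  · intro h
    have := Option.some.inj h
    omega

/-- **Main result.** -/
theorem result :
    Primrec answer ∧
    (∀ A : ℤ, A ≠ 0 → answer A = some 0 → ∀ X Y : ℚ, X ^ 3 + Y ^ 3 = A → X = Y) ∧
    (∀ m : ℕ → ℕ, Multipliers m →
      (∀ n j : ℕ, Tendsto (proportion fun D => solvedCount m n D = j) atTop
        (nhds (n.choose j * c ^ j * (1 - c) ^ (n - j)))) ∧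
      (∀ n : ℕ, 0 < n → ∀ ε : ℝ, 0 < ε → ∃ l : ℝ, l ≤ 2 * Real.exp (-(ε ^ 2 * n / 4)) ∧
        Tendsto (proportion fun D => ε ≤ |(solvedCount m n D : ℝ) / n - c|) atTop (nhds l)) ∧
      (∀ N : ℕ, Tendsto (proportion fun D => ∃ F : Finset ℕ, F.card = N ∧ ∀ k ∈ F,
        Solved (D * m k)) atTop (nhds 1))) ∧
    (∃ (a : ℝ) (X₀ : ℕ), 0 < a ∧ ∀ X : ℕ, X₀ ≤ X →
      a * (X / Real.sqrt (Real.log X)) ≤ (count (fun _ => True) X : ℝ)) ∧
    0.56 < c ∧ c < 0.5602 := by
  refine ⟨pr_answer, fun A hA h => sound hA h, fun m hm => ?_, ?_, ?_⟩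
  · have hs := seq hm
    have hsol : ∀ D, Squarefree D → Pool.Agent.Y703.CT.Cls D → ∀ k,
        (Pool.Agent.Y703.CT.NoSplit (D * m k) ↔ Solved (D * m k)) := fun D hD hC k =>
      solved_iff (Q283.Q3N.cls_mul' hD hC (hs.adm k) (hm.sqf k))
    have hcnt : ∀ n D : ℕ, Squarefree D → Pool.Agent.Y703.CT.Cls D →
        ((Finset.range n).filter fun k => Pool.Agent.Y703.CT.NoSplit (D * m k)).card =
          solvedCount m n D := by
      intro n D hD hC
      unfold solvedCount
      exact Pool.Agent.XLK.fcc fun k _ => hsol D hD hC k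
    refine ⟨fun n j => ?_, fun n hn ε hε => ?_, fun N => ?_⟩
    · refine (Q283.Q3N.binom hs n j).congr fun X => ?_
      have e := prop_eq (fun D => solvedCount m n D = j)
        (fun D => ((Finset.range n).filter fun k => Pool.Agent.Y703.CT.NoSplit (D * m k)).card = j)
        (fun D hD hC => by rw [hcnt n D hD hC]) X
      refine Eq.trans ?_ e
      congr 2
      exact Q283.T3.fcc2 _ _
    · obtain ⟨l, hl, h⟩ := Q283.Q3N.lln_exp hs n hn ε hε
      refine ⟨l, hl, h.congr fun X => ?_⟩
      exact prop_eq (fun D => ε ≤ |(solvedCount m n D : ℝ) / n - c|) _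
        (fun D hD hC => by rw [hcnt n D hD hC]; rfl) X
    · refine (Q283.Q3N.manyQ hs N).congr fun X => ?_
      refine prop_eq _ _ (fun D hD hC => ?_) X
      exact exists_congr fun F => and_congr_right fun _ => forall_congr' fun k =>
        forall_congr' fun _ => hsol D hD hC k
  · obtain ⟨a, X₀, ha, h⟩ := Q283.Q3N.low_SN
    refine ⟨a, X₀, ha, fun X hX => (h X hX).trans (le_of_eq ?_)⟩
    unfold count Q283.Q3N.SN
    congr 1
    refine Pool.Agent.XLK.fcc fun D _ => ?_
    rw [base_iff]
    exact ⟨fun h => ⟨h.1, h.2, trivial⟩, fun h => ⟨h.1, h.2.1⟩⟩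
  · obtain ⟨h1, -, -, h4⟩ := Pool.Agent.Y461.CX.t_C3
    refine ⟨h4, ?_⟩
    have h5 := (abs_le.1 (h1 10)).1
    have h6 : ∏ i ∈ Finset.range 10, (1 - (1 / 3 : ℝ) ^ (i + 1)) < 0.56015 := by
      norm_num [Finset.prod_range_succ]
    have h7 : (1 / 3 : ℝ) ^ 10 < 0.00002 := by norm_num
    have h8 : c = Pool.Agent.Y703.CX.c3 := rfl
    rw [h8]
    linarith

end Pool.Agent.Results.MP_8e0b0b_nt.EverySequenceOfMultipliers
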