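import Pool.Agent.Q33.CG.Cnt

/-!
# MP_8e0b0b_nt: generators of the rational points of `X ^ 3 + Y ^ 3 = A`

One algorithm which returns, for some of the nonzero integers `A`, a set of generators with the
least number of elements, and which never returns a wrong answer. It returns an answer for all
`A = D m ^ 3` with `D = 1` or with `D` in a class of numbers described by congruences and by cubic
residues; these are at least `56` percent of the squarefree numbers which are prime to `3`, not `1`
or `8` modulo `9`, and have exactly one prime factor `2` modulo `3`.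
-/

set_option autoImplicit false

open scoped Classical

namespace Pool.Agent.Results.MP_8e0b0b_nt.GeneratorsForCubicTwists

open Pool.Agent.Q33.CG Pool.Agent.Y703.CT

theorem result :
    ∃ φ : Bool × ℕ → Option (List ((Bool × ℕ) × (Bool × ℕ))), Computable φ ∧
      (∀ e L, val e ≠ 0 → φ e = some L →
        (∀ X Y : ℚ, X ^ 3 + Y ^ 3 = val e ↔ (X, Y) ∈ L.map pt ∨ (Y, X) ∈ L.map pt) ∧
        Gens (val e) {P | P ∈ L.map pt} ∧ rk (val e) = L.length) ∧
      (∀ e (D : ℕ) (m : ℤ), m ≠ 0 → (D = 1 ∨ (Cls D ∧ NoSplit D)) → val e = D * m ^ 3 →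
        (φ e).isSome) ∧
      ∃ c : ℝ, 0 < c ∧ ∃ X₀ : ℕ, ∀ X : ℕ, X₀ ≤ X →
        c * X / Real.sqrt (Real.log X) ≤
          (((Finset.Icc 1 X).filter fun D => Squarefree D ∧ Cls D).card : ℝ) ∧
        (56 / 100 : ℝ) * (((Finset.Icc 1 X).filter fun D => Squarefree D ∧ Cls D).card : ℝ) ≤
          (((Finset.Icc 1 X).filter fun D => Squarefree D ∧ Cls D ∧
            (φ (false, D)).isSome).card : ℝ) :=
  main

end Pool.Agent.Results.MP_8e0b0b_nt.GeneratorsForCubicTwists
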