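import Mathlib
import Pool.Agent.Q1.CD.Alg

/-!
# An algorithm for the rational solutions of `X³ + Y³ = A` and the exact joint law of its outputs

The algorithm `answer` (primitive recursive, `Pool/Agent/Q1/CD/Defs.lean`): for a nonzero integer `A` let
`n` be the cube-free part of `|A|`. If `n` is a base number (prime to `3`, not `±1` modulo `9`, exactly one
prime divisor `2` modulo `3`), count the decompositions `n = d₀ d₁ d₂` in coprime factors such that
`d₁ d₂²`, `d₂ d₀²`, `d₀ d₁²` are cubes modulo the primes dividing `d₀`, `d₁`, `d₂`; there are `3 ^ (r + 1)`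
of them, and the output is `2 r`. For other numbers `A` there is no output.

* If the output is `0`, then every rational solution of `X³ + Y³ = A` has `X = Y`: the group `C_A(ℚ)` is
  trivial, generated by the empty set, or `A = 2 b³` and `C_A(ℚ) = {𝒪, (b, b)}`, generated by `(b, b)`.
* The output is a bound for the rank of `E_n(ℚ)`, `E_n : y² + n y = x³` (`3`-isogenous to
  `X³ + Y³ = n`); it is `0` if and only if `E_n(ℚ)` is finite and `Ш(E_n/ℚ)[3^∞] = 0`.
* EXACT JOINT LAW: let `D` run through the squarefree base numbers, ordered by size (at least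
  `a X / sqrt (log X)` of them up to `X`), and let `m_1, …, m_M` be different squarefree numbers, `1`
  modulo `9`, all prime divisors `1` modulo `3` (for example `1`, or primes `1` modulo `9`). For every set
  `T` of vectors the proportion of the `D` for which the outputs for `D m_1, …, D m_M` are
  `2 r_1, …, 2 r_M` with `r` in `T` tends to the measure of `T` for the `M`-th power of the law
  `law r = c 3^r / ((3 - 1)² (9 - 1)² ⋯ (3^r - 1)²)`, `c = ∏_{i ≥ 1} (1 - 3^{-i})`, `0.56 < c < 0.5602`.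
  In particular the output for `D` is `2 r` for the exact proportion `law r`, and all the equations
  `X³ + Y³ = D m_k` are solved for the exact proportion `c ^ M`.
-/

set_option autoImplicit false

open scoped Classical

namespace Pool.Agent.Results.MP_8e0b0b_nt.JointLawOfOutputs

open Filter
open Pool.Agent.Q1.CD

/-- the multipliers: squarefree, `1` modulo `9`, all prime divisors `1` modulo `3` -/
def Multiplier (m : ℕ) : Prop :=
  Squarefree m ∧ m % 9 = 1 ∧ ∀ p : ℕ, p.Prime → p ∣ m → p % 3 = 1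

/-- the number of the squarefree base numbers `D ≤ X` with the property `P` -/
noncomputable def count (P : ℕ → Prop) (X : ℕ) : ℕ :=
  ((Finset.Icc 1 X).filter fun D => Squarefree D ∧ IsBase D ∧ P D).card

/-- the proportion of the squarefree base numbers `D ≤ X` with the property `P` -/
noncomputable def proportion (P : ℕ → Prop) (X : ℕ) : ℝ :=
  (count P X : ℝ) / (count (fun _ => True) X : ℝ)

/-- `c = ∏_{i ≥ 1} (1 - 3^{-i})` -/
noncomputable def c : ℝ := ∏' i : ℕ, (1 - (1 / 3 : ℝ) ^ (i + 1))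

/-- the law of the coranks of large square matrices over the field with three elements -/
noncomputable def law (r : ℕ) : ℝ := c * 3 ^ r / ∏ i ∈ Finset.range r, ((3 : ℝ) ^ (i + 1) - 1) ^ 2

theorem adm {m : ℕ} (h : Multiplier m) : Q283.Q3N.Adm m :=
  ⟨h.2.1, fun p hp hd => ⟨h.2.2 p hp hd, fun h3 => by
    have h6 : p * p ∣ m := (Dvd.intro p (by ring)).trans h3
    exact hp.one_lt.ne' (Nat.isUnit_iff.1 (h.1 p h6))⟩⟩

/-- translation of the proportions -/
theorem prop_eq (P Q : ℕ → Prop) (h : ∀ D, Squarefree D → Pool.Agent.Y703.CT.Cls D → (Q D ↔ P D))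
    (X : ℕ) :
    (((Q283.Q3N.SN X).filter fun D => Q D).card : ℝ) / ((Q283.Q3N.SN X).card : ℝ) =
      proportion P X := by
  unfold proportion count Q283.Q3N.SN
  rw [Finset.filter_filter]
  congr 2
  · refine Pool.Agent.XLK.fcc fun D _ => ?_
    rw [base_iff, ← and_assoc]
    exact and_congr_right fun hD => h D hD.1 hD.2
  · refine Pool.Agent.XLK.fcc fun D _ => ?_
    rw [base_iff]
    exact ⟨fun h => ⟨h.1, h.2, trivial⟩, fun h => ⟨h.1, h.2.1⟩⟩

/-- **Main result.** -/
theorem result :
    Primrec answer ∧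
    (∀ A : ℤ, A ≠ 0 → answer A = some 0 → ∀ X Y : ℚ, X ^ 3 + Y ^ 3 = A → X = Y) ∧
    (∀ n : ℕ, IsBase n → ∃ r : ℕ, rank n ≤ 2 * r ∧ (r = 0 ↔ Good n) ∧
      ∀ (A : ℤ) (b : ℕ), A ≠ 0 → A.natAbs = n * b ^ 3 → answer A = some (2 * r)) ∧
    (∀ (M : ℕ) (m : Fin M → ℕ), Function.Injective m → (∀ k, Multiplier (m k)) →
      ∀ T : Set (Fin M → ℕ), Tendsto (proportion fun D =>
        ∃ r ∈ T, ∀ k, answer ((D * m k : ℕ) : ℤ) = some (2 * r k)) atTop
          (nhds (∑' r : T, ∏ k, law (r.1 k)))) ∧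
    (∃ (a : ℝ) (X₀ : ℕ), 0 < a ∧ ∀ X : ℕ, X₀ ≤ X →
      a * (X / Real.sqrt (Real.log X)) ≤ (count (fun _ => True) X : ℝ)) ∧
    law 0 = c ∧ HasSum law 1 ∧ 0.56 < c ∧ c < 0.5602 := by
  have hlaw : Q283.Q3.cq = law := funext fun r => Q283.Q3.cq_eq r
  refine ⟨pr_answer, fun A hA h => sound hA h, fun n hn => ?_, fun M m hi hm T => ?_, ?_, ?_, ?_, ?_⟩
  · have hC := (base_iff n).1 hn
    exact ⟨_, rank_le hC, rr_zero hC, fun A b hA hb => answer_cube hC hA hb⟩
  · have h := Q283.Q3B.law_rr m (fun k => adm (hm k)) (fun k => (hm k).1) hi T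
    rw [hlaw] at h
    refine h.congr fun X => ?_
    refine prop_eq (fun D => ∃ r ∈ T, ∀ k, answer ((D * m k : ℕ) : ℤ) = some (2 * r k)) _
      (fun D hD hC => ?_) X
    have hv : ∀ k, answer ((D * m k : ℕ) : ℤ) = some (2 * Q283.Q3B.rr (D * m k)) := fun k =>
      answer_nat (Q283.Q3N.cls_mul' hD hC (adm (hm k)) (hm k).1)
    constructor
    · intro h
      exact ⟨_, h, hv⟩
    · rintro ⟨r, hr, h2⟩
      have e : (fun k => Q283.Q3B.rr (D * m k)) = r := by
        funext k
        have h3 := (hv k).symm.trans (h2 k)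
        have h4 := Option.some.inj h3
        omega
      rw [e]
      exact hr
  · obtain ⟨a, X₀, ha, h⟩ := Q283.Q3N.low_SN
    refine ⟨a, X₀, ha, fun X hX => (h X hX).trans (le_of_eq ?_)⟩
    unfold count Q283.Q3N.SN
    congr 1
    refine Pool.Agent.XLK.fcc fun D _ => ?_
    rw [base_iff]
    exact ⟨fun h => ⟨h.1, h.2, trivial⟩, fun h => ⟨h.1, h.2.1⟩⟩
  · unfold law
    simp
  · rw [← hlaw]
    exact Q283.Q3.sum_cq
  · obtain ⟨h1, -, -, h4⟩ := Pool.Agent.Y461.CX.t_C3
    refine ⟨h4, ?_⟩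
    have h5 := (abs_le.1 (h1 10)).1
    have h6 : ∏ i ∈ Finset.range 10, (1 - (1 / 3 : ℝ) ^ (i + 1)) < 0.56015 := by
      norm_num [Finset.prod_range_succ]
    have h7 : (1 / 3 : ℝ) ^ 10 < 0.00002 := by norm_num
    have h8 : c = Pool.Agent.Y703.CX.c3 := rfl
    rw [h8]
    linarith

end Pool.Agent.Results.MP_8e0b0b_nt.JointLawOfOutputs
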