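import Mathlib
import Pool.Agent.Q1.CD.Alg
import Pool.Agent.Q283.NK.G1

/-!
# Solving `X³ + Y³ = A` inside the divisors of almost every integer

The algorithm `answer` (primitive recursive, `Pool/Agent/Q1/CD/Defs.lean`): for a nonzero integer `A` let
`n` be the cube-free part of `|A|`. If `n` is a base number (prime to `3`, not `±1` modulo `9`, exactly one
prime divisor `2` modulo `3`), count the decompositions `n = d₀ d₁ d₂` in coprime factors such that
`d₁ d₂²`, `d₂ d₀²`, `d₀ d₁²` are cubes modulo the primes dividing `d₀`, `d₁`, `d₂`; there are `3 ^ (r + 1)`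
of them, and the output is `2 r`. For other numbers `A` there is no output. `A` is SOLVED if the output is
`0`; then every rational solution of `X³ + Y³ = A` has `X = Y`: the group `C_A(ℚ)` is trivial (generated by
the empty set), or `A = 2 b³` and `C_A(ℚ) = {𝒪, (b, b)}` (generated by `(b, b)`). In general the output is a
bound for the rank of `E_n(ℚ)`, `E_n : y² + n y = x³`, which is `3`-isogenous to `X³ + Y³ = n`.

For a positive integer `D` let `D'` be the product of its prime divisors `1` modulo `3`.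

THERE IS ONE SET `S` of positive integers, of NATURAL DENSITY `1`, such that the following holds for all
numbers `n` and EVERY finite family of forms `F_j(d) = N_j d_1 ^ e_j1 ⋯ d_n ^ e_jn` (`j = 1, ..., M`; `N_j` a
base number, `e_j ≠ 0`) without the trivial relations `F_j = F_l` and `F_j F_l = cube` (`j ≠ l`), for every
`ε > 0`, all large `D` in `S` and all residue classes `a = (a_1, ..., a_n)` modulo `9` with no `F_j(a)`
equal to `±1` modulo `9`: let `d = (d_1, ..., d_n)` run through the tuples of divisors `d_i ≡ a_i` modulo `9`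
of `D'²` (if there are any, they are at least the share `3 ^ (-n)` of all tuples; `a = (1, ..., 1)` always
has some).
(1) For every set `T` of vectors the share of the `d` for which the outputs for `F_1(d), ..., F_M(d)` are
    `2 r_1, ..., 2 r_M` with `r` in `T` is within `ε` of the measure of `T` for the `M`-th power of the law
    `law r = c 3^r / ((3 - 1)² (9 - 1)² ⋯ (3^r - 1)²)`, `c = ∏_{i ≥ 1} (1 - 3^{-i})`, `0.56 < c < 0.5602`.
(2) For every subset `A` of the family the share of the `d` for which exactly the `F_j(d)` with `j` in `A`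
    are solved is within `ε` of `c ^ |A| (1 - c) ^ (M - |A|)`.
(3) For `M > 0` and `η > 0` the share of the `d` for which the frequency of the solved `F_j(d)` differs
    from `c` by `η` or more is at most `2 exp (- η² M / 4) + ε`.
(4) For every `j` the mean rank of the curves `X³ + Y³ = F_j(d)` is less than `0.92`.
-/

set_option autoImplicit false

open scoped Classical

namespace Pool.Agent.Results.MP_8e0b0b_nt.OutputsInsideDivisors

open Filter
open Pool.Agent.Q1.CD

/-- The product of the prime divisors `1` modulo `3` of `D`. -/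
def splitPart (D : ℕ) : ℕ := ∏ p ∈ D.primeFactors.filter (fun p => p % 3 = 1), p

/-- The divisors in the residue class `a` modulo `9` of the square of the split part of `D`. -/
def divs (a D : ℕ) : Finset ℕ := (splitPart D ^ 2).divisors.filter fun d => d % 9 = a

/-- The tuples of divisors in the residue classes `a`. -/
def tuples {n : ℕ} (a : Fin n → ℕ) (D : ℕ) : Finset (Fin n → ℕ) :=
  Fintype.piFinset fun i => divs (a i) D

/-- The form `d_1 ^ e_1 ⋯ d_n ^ e_n` with exponents `0, 1, 2`. -/
def form {n : ℕ} (e : Fin n → ZMod 3) (d : Fin n → ℕ) : ℕ := ∏ i, d i ^ (e i).val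

/-- No trivial relations: no `e_j` is zero, and for `j ≠ l` neither are the forms equal nor is their
product a cube identically. -/
def Unrelated {M n : ℕ} (N : Fin M → ℕ) (e : Fin M → Fin n → ZMod 3) : Prop :=
  (∀ j, e j ≠ 0) ∧ ∀ j l, j ≠ l →
    ¬ (e l = e j ∧ N l = N j) ∧ ¬ (e l = -e j ∧ ∃ b : ℕ, N j * N l = b ^ 3)

/-- the algorithm solves `X³ + Y³ = n` -/
def Solved (n : ℕ) : Prop := answer (n : ℤ) = some 0

/-- The vector of the values `N_j d_1 ^ e_j1 ⋯ d_n ^ e_jn` of the forms. -/
def values {M n : ℕ} (N : Fin M → ℕ) (e : Fin M → Fin n → ZMod 3) (d : Fin n → ℕ) : Fin M → ℕ :=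
  fun j => N j * form (e j) d

/-- The share of the tuples of divisors in the residue classes `a` for which the vector of the values has
the property `P`. -/
noncomputable def share {M n : ℕ} (N : Fin M → ℕ) (e : Fin M → Fin n → ZMod 3) (a : Fin n → ℕ)
    (D : ℕ) (P : (Fin M → ℕ) → Prop) : ℝ :=
  (((tuples a D).filter fun d => P (values N e d)).card : ℝ) / (tuples a D).card

/-- The mean of `f` at the values of one form. -/
noncomputable def mean {n : ℕ} (N : ℕ) (e : Fin n → ZMod 3) (a : Fin n → ℕ) (D : ℕ) (f : ℕ → ℝ) : ℝ :=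
  (∑ d ∈ tuples a D, f (N * form e d)) / (tuples a D).card

/-- the number of the `j` for which `v j` is solved -/
noncomputable def number {M : ℕ} (v : Fin M → ℕ) : ℕ := (Finset.univ.filter fun j => Solved (v j)).card

/-- the number of the `D ≤ X` with the property `P` -/
noncomputable def count (P : ℕ → Prop) (X : ℕ) : ℕ := ((Finset.Icc 1 X).filter P).card

/-- `c = ∏_{i ≥ 1} (1 - 3^{-i})` -/
noncomputable def c : ℝ := ∏' i : ℕ, (1 - (1 / 3 : ℝ) ^ (i + 1))

/-- the law of the coranks of large square matrices over the field with three elements -/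
noncomputable def law (r : ℕ) : ℝ := c * 3 ^ r / ∏ i ∈ Finset.range r, ((3 : ℝ) ^ (i + 1) - 1) ^ 2

section proof

open Q283.Q3B Q283.Q3N Q283.ND Q283.NJ Q283.NK
open Q283.Q3 (cq cq_eq cq_ge sum_cq cq_zero)

theorem law_eq (r : ℕ) : cq r = law r := cq_eq r

theorem pw_inj {a b : ℕ} (h : some (2 * a) = some (2 * b)) : a = b := by
  have := Option.some.inj h
  omega

theorem mem_tuples {n : ℕ} {a : Fin n → ℕ} {D : ℕ} {d : Fin n → ℕ} :
    d ∈ tuples a D ↔ ∀ i, d i ∈ divs (a i) D := by
  unfold tuples
  rw [Fintype.mem_piFinset]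

theorem tuples_eq {n : ℕ} (a : Fin n → ℕ) (D : ℕ) : tuples a D = DkK a (sp D) := by
  ext d
  rw [mem_tuples, mem_DkK]
  exact Iff.rfl

/-- the cube-free part of a product of divisors -/
theorem cls_form {n : ℕ} {N D : ℕ} {e : Fin n → ZMod 3} {d : Fin n → ℕ}
    (hN : Pool.Agent.Y703.CT.Cls N) (hd : ∀ i, d i ∣ splitPart D ^ 2) (h1 : N * form e d % 9 ≠ 1)
    (h8 : N * form e d % 9 ≠ 8) : Pool.Agent.Y703.CT.Cls (cubeFree (N * form e d)) ∧
      N * form e d ≠ 0 := by
  have hS : ∀ p ∈ (sp D).primeFactors, p.Prime := fun p hp => Nat.prime_of_mem_primeFactors hp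
  have h0 : sp D ≠ 0 := (sp_sqf D).ne_zero
  have hd0 : ∀ i, d i ≠ 0 := fun i h => pow_ne_zero 2 h0 (zero_dvd_iff.1 (h ▸ hd i))
  have hf0 : form e d ≠ 0 := fo_ne hd0
  have hp : ∀ p : ℕ, p.Prime → p ∣ form e d → p % 3 = 1 := by
    intro p hp hpd
    obtain ⟨i, -, hi⟩ := (hp.prime.dvd_finsetProd_iff _).1 hpd
    exact (sp_ac D).2 p hp (hp.dvd_of_dvd_pow ((hp.dvd_of_dvd_pow hi).trans (hd i)))
  obtain ⟨M, c, g1, g2, g3, -⟩ := Q283.MC.cf_bs (N := N) (R := form e d) ⟨hN.1, hN.2.2.2⟩ hf0 hp
  have hn : N * form e d ≠ 0 := mul_ne_zero hN.1.1 hf0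
  have h2 : M = cf (N * form e d) := cf_unique (g1.symm.trans (cf_mul hn)) (by rw [← g1]; exact hn)
    g2.1.2.2 (cf_free _)
  refine ⟨?_, hn⟩
  show Pool.Agent.Y703.CT.Cls (cf (N * form e d))
  rw [← h2]
  exact ⟨g2.1, by rw [g3]; exact h1, by rw [g3]; exact h8, g2.2⟩

theorem form_mod {n : ℕ} {D : ℕ} {e : Fin n → ZMod 3} {a d : Fin n → ℕ} (hd : d ∈ tuples a D)
    (N : ℕ) : N * form e d % 9 = N * form e a % 9 := by
  have h1 : ∀ i, d i % 9 = a i := fun i => (Finset.mem_filter.1 (mem_tuples.1 hd i)).2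
  have h2 : Nat.ModEq 9 (form e d) (form e a) := by
    unfold form
    rw [← ZMod.natCast_eq_natCast_iff]
    push_cast
    refine Finset.prod_congr rfl fun i _ => ?_
    rw [← h1 i, ZMod.natCast_mod]
  exact (Nat.ModEq.refl N).mul h2

theorem tuple_dvd {n : ℕ} {D : ℕ} {a d : Fin n → ℕ} (hd : d ∈ tuples a D) (i : Fin n) :
    d i ∣ splitPart D ^ 2 :=
  ((mem_Dk (k := a i) (sp_sqf D)).1 (mem_tuples.1 hd i)).1

/-- the cube-free part of a product of divisors in the classes -/
theorem cls_of {n : ℕ} {N D : ℕ} {e : Fin n → ZMod 3} {a d : Fin n → ℕ}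
    (hN : Pool.Agent.Y703.CT.Cls N) (h1 : N * form e a % 9 ≠ 1)
    (h8 : N * form e a % 9 ≠ 8) (hd : d ∈ tuples a D) :
    Pool.Agent.Y703.CT.Cls (cubeFree (N * form e d)) ∧ N * form e d ≠ 0 :=
  cls_form hN (tuple_dvd hd) (by rw [form_mod hd]; exact h1) (by rw [form_mod hd]; exact h8)

/-- the shares -/
theorem share_eq {M n : ℕ} {N : Fin M → ℕ} {e : Fin M → Fin n → ZMod 3} {a : Fin n → ℕ} {D : ℕ}
    {P Q : (Fin M → ℕ) → Prop}
    (h : ∀ d ∈ tuples a D, P (values N e d) ↔ Q (fun j => rr (cubeFree (values N e d j)))) :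
    share N e a D P =
      (((DkK a (sp D)).filter fun d => (fun j => rr (cf (N j * fo (e j) d))) ∈ {r | Q r}).card : ℝ) /
        (DkK a (sp D)).card := by
  unfold share
  rw [tuples_eq] at h ⊢
  congr 2
  exact Pool.Agent.XLK.fcc fun d hd => h d hd

end proof

open Q283.Q3B Q283.Q3N Q283.ND Q283.NJ Q283.NK in
open Q283.Q3 (cq cq_eq cq_ge sum_cq cq_zero) in
/-- **Main result.** -/
theorem result :
    Primrec answer ∧
    (∀ A : ℤ, A ≠ 0 → answer A = some 0 → ∀ X Y : ℚ, X ^ 3 + Y ^ 3 = A → X = Y) ∧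
    (∀ (A : ℤ) (k : ℕ), A ≠ 0 → answer A = some k → rank (cubeFree A.natAbs) ≤ k) ∧
    (∀ (n : ℕ) (a : Fin n → ℕ) (D : ℕ), (tuples (fun _ : Fin n => 1) D).Nonempty ∧
      ((tuples a D).Nonempty →
        3 ^ (n * (splitPart D).primeFactors.card) ≤ 3 ^ n * (tuples a D).card)) ∧
    (∃ S : ℕ → Prop, Tendsto (fun X : ℕ => (count S X : ℝ) / X) atTop (nhds 1) ∧
      ∀ (M n : ℕ) (N : Fin M → ℕ) (e : Fin M → Fin n → ZMod 3), (∀ j, IsBase (N j)) →
      Unrelated N e → ∀ ε : ℝ, 0 < ε → ∃ D₀ : ℕ, ∀ D : ℕ, D₀ ≤ D → S D →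
        ∀ a : Fin n → ℕ, (∀ j, N j * form (e j) a % 9 ≠ 1 ∧ N j * form (e j) a % 9 ≠ 8) →
          (tuples a D).Nonempty →
          (∀ T : Set (Fin M → ℕ),
            |share N e a D (fun v => ∃ r ∈ T, ∀ j, answer (v j : ℤ) = some (2 * r j)) -
              ∑' r : T, ∏ j, law (r.1 j)| ≤ ε) ∧
          (∀ A : Finset (Fin M), |share N e a D (fun v => ∀ j, (Solved (v j) ↔ j ∈ A)) -
            c ^ A.card * (1 - c) ^ (M - A.card)| ≤ ε) ∧
          (0 < M → ∀ η : ℝ, 0 < η → share N e a D (fun v => η ≤ |(number v : ℝ) / M - c|) ≤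
            2 * Real.exp (-(η ^ 2 * M / 4)) + ε) ∧
          ∀ j, mean (N j) (e j) a D (fun n => (rank (cubeFree n) : ℝ)) < 0.92) ∧
    HasSum law 1 ∧ 0.56 < c ∧ c < 0.5602 := by
  have hlaw : cq = law := funext law_eq
  have hc3 : c = Pool.Agent.Y703.CX.c3 := rfl
  have hc1 : 0.56 < c ∧ c < 0.5602 := by
    rw [hc3]
    exact ⟨Q283.ND.c3_lt.2, Q283.ND.c3_lt.1⟩
  refine ⟨pr_answer, fun A hA h => sound hA h, fun A k hA h => (bound hA h).2,
    fun n a D => ⟨?_, fun h => ?_⟩, ?_, ?_, hc1⟩
  · obtain ⟨x, hx⟩ := one_mem (sp_ac D)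
    exact ⟨fun _ => x, mem_tuples.2 fun _ => hx⟩
  · rw [tuples_eq] at h ⊢
    have h1 := DkK_card (sp_ac D) h
    rw [Fintype.card_fin] at h1
    exact h1
  · obtain ⟨S, hS, hS', hJ, hL⟩ := mainKC
    refine ⟨S, ?_, fun M n N e hN hinj ε hε => ?_⟩
    · have h1 := Q155.NL.tendsto_of_alm (C := fun _ => True) ⟨1, le_rfl, trivial⟩ hS
      refine h1.congr fun X => ?_
      have h2 : Q155.NL.cnt (fun _ => True) X = X := by
        have h0 : Q155.NL.cs (fun _ => True) X = Finset.Icc 1 X := by
          ext D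
          rw [Q155.NL.mem_cs, Finset.mem_Icc]
          exact ⟨fun h => h.1, fun h => ⟨h, trivial⟩⟩
        unfold Q155.NL.cnt
        rw [h0, Nat.card_Icc]
        omega
      rw [h2]
      congr 2
      unfold Q155.NL.cnt Q155.NL.cs count
      congr 1
      ext D
      simp
    · have hC : ∀ j, Pool.Agent.Y703.CT.Cls (N j) := fun j => (base_iff (N j)).1 (hN j)
      have hI : Ind N e := ind_of hC hinj.1 hinj.2
      obtain ⟨e₁, he₁⟩ : ∃ e₁ : ℝ, e₁ = min (ε / 2 ^ M) ((0.92 - 2 * mu) / 4) := ⟨_, rfl⟩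
      have hmu := mu_lt
      have he0 : 0 < e₁ := by
        rw [he₁]
        exact lt_min (by positivity) (by linarith)
      have hee : 2 ^ M * e₁ ≤ ε := by
        have h1 : e₁ ≤ ε / 2 ^ M := by rw [he₁]; exact min_le_left _ _
        rw [le_div_iff₀ (by positivity)] at h1
        linarith
      have hea : e₁ ≤ ε := (le_mul_of_one_le_left he0.le (one_le_pow₀ (by norm_num))).trans hee
      have hec : e₁ ≤ (0.92 - 2 * mu) / 4 := by rw [he₁]; exact min_le_right _ _
      have hall : ∀ᶠ D in atTop, ∀ j, S D → PL (N j) e₁ (sp D) :=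
        eventually_all.2 fun j => hL (N j) (hC j) e₁ he0
      obtain ⟨D₀, hD₀⟩ := eventually_atTop.1 ((hJ M n N e hC hI e₁ he0).and hall)
      refine ⟨D₀, fun D hD hSD a ha hne => ?_⟩
      obtain ⟨hJD, hLD⟩ := hD₀ D hD
      have hJa := hJD hSD a (fun j => (ha j).1) (fun j => (ha j).2)
      have hne' : (DkK a (sp D)).Nonempty := by rw [← tuples_eq]; exact hne
      have hpos : 0 < (DkK a (sp D)).card := Finset.card_pos.2 hne'
      have hpos' : (0 : ℝ) < (DkK a (sp D)).card := by exact_mod_cast hpos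
      have hcl : ∀ d ∈ tuples a D, ∀ j, Pool.Agent.Y703.CT.Cls (cubeFree (values N e d j)) ∧
          values N e d j ≠ 0 :=
        fun d hd j => cls_of (hC j) (ha j).1 (ha j).2 hd
      have hans : ∀ d ∈ tuples a D, ∀ j, answer (values N e d j : ℤ) =
          some (2 * rr (cubeFree (values N e d j))) := fun d hd j =>
        answer_cf (hcl d hd j).2 (hcl d hd j).1
      have hrr : ∀ d ∈ tuples a D, ∀ i, (Solved (values N e d i) ↔
          rr (cubeFree (values N e d i)) = 0) := by
        intro d hd i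
        unfold Solved
        rw [hans d hd i]
        constructor
        · intro h
          exact pw_inj (b := 0) h
        · intro h
          rw [h]
      have hT : ∀ T : Set (Fin M → ℕ),
          |(((DkK a (sp D)).filter fun d => (fun j => rr (cf (N j * fo (e j) d))) ∈ T).card : ℝ) /
            (DkK a (sp D)).card - ∑' r : T, ∏ j, law (r.1 j)| ≤ e₁ := by
        intro T
        have h2 := div_abs hpos' (hJa T)
        have h3 : msJ T = ∑' r : T, ∏ j, law (r.1 j) := by
          rw [← hlaw]
          rfl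
        rw [h3] at h2
        exact h2
      have hA : ∀ A : Finset (Fin M), |share N e a D (fun v => ∀ j, (Solved (v j) ↔ j ∈ A)) -
            c ^ A.card * (1 - c) ^ (M - A.card)| ≤ e₁ := by
        intro A
        rw [share_eq (Q := fun r => ∀ k, (r k = 0 ↔ k ∈ A)) fun d hd =>
          forall_congr' fun i => by rw [hrr d hd i]]
        have h2 := hT {r | ∀ k, (r k = 0 ↔ k ∈ A)}
        have h3 : ∑' r : {r : Fin M → ℕ | ∀ k, (r k = 0 ↔ k ∈ A)}, ∏ j, law (r.1 j) =
            c ^ A.card * (1 - c) ^ (M - A.card) := by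
          have h4 := Q283.Q3A.meas_A A
          rw [cq_zero, ← hc3, hlaw] at h4
          exact h4
        rw [h3] at h2
        exact h2
      have hpat : ∀ J : ℕ → Prop, |share N e a D (fun v => J (number v)) -
          ∑ A : Finset (Fin M), (if J A.card then wt c A else 0)| ≤ ε := by
        intro J
        have hA' : ∀ A : Finset (Fin M), |(((tuples a D).filter fun d =>
            ∀ k, (Solved (values N e d k) ↔ k ∈ A)).card : ℝ) / (tuples a D).card - wt c A| ≤
              e₁ := by
          intro A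
          have h2 := hA A
          unfold share at h2
          have h3 : ((tuples a D).filter fun d => ∀ k, (Solved (values N e d k) ↔ k ∈ A)).card =
              ((tuples a D).filter fun d => (fun v : Fin M → ℕ => ∀ j, (Solved (v j) ↔ j ∈ A))
                (values N e d)).card :=
            Pool.Agent.XLK.fcc fun d _ => Iff.rfl
          rw [h3]
          unfold wt
          convert h2
        have h2 := pat_fin (tuples a D) M (fun j d => Solved (values N e d j)) (p := c) hA' J
        have h3 : share N e a D (fun v => J (number v)) = (((tuples a D).filter fun d =>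
            J (Finset.univ.filter fun k => Solved (values N e d k)).card).card : ℝ) /
              (tuples a D).card := by
          unfold share number
          congr 2
        rw [h3]
        exact h2.trans hee
      refine ⟨fun T => ?_, fun A => (hA A).trans hea, fun hM η hη => ?_, fun i => ?_⟩
      · rw [share_eq (Q := fun r => r ∈ T) fun d hd => ?_]
        · exact (hT T).trans hea
        · constructor
          · rintro ⟨r, hr, h3⟩
            have h4 : (fun i => rr (cubeFree (values N e d i))) = r := by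
              funext i
              exact pw_inj ((hans d hd i).symm.trans (h3 i))
            rw [h4]
            exact hr
          · intro h3
            exact ⟨_, h3, fun i => hans d hd i⟩
      · have h2 := (abs_le.1 (hpat fun m => η ≤ |(m : ℝ) / M - c|)).2
        have h3 := wt_tail (p := c) (by linarith [hc1.1]) (by linarith [hc1.2]) hM hη
        linarith
      · have hk : PL (N i) e₁ (sp D) := hLD i hSD
        have hLw := hk _ (by rw [Nat.mul_mod_mod]; exact (ha i).1)
          (by rw [Nat.mul_mod_mod]; exact (ha i).2)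
        have hne1 := Dk_fo_ne (sp_ac D) (hinj.1 i) hne'
        have h2 : mean (N i) (e i) a D (fun n => (rank (cubeFree n) : ℝ)) =
            (∑ d ∈ Dk (fo (e i) a % 9) (sp D), (rank (cf (N i * d)) : ℝ)) /
              (Dk (fo (e i) a % 9) (sp D)).card := by
          unfold mean
          rw [tuples_eq]
          exact mean_fo (sp_ac D) (hC i).1.1 (hinj.1 i) hne' (fun x => (rank x : ℝ))
        rw [h2]
        refine mean_rank hLw (Finset.card_pos.2 hne1) (R := fun d => rank (cf (N i * d)))
          (fun d hd => rank_le (Q283.ND.cls_cf (hC i) (sp_ac D) ((mem_Dk (sp_sqf D)).1 hd).1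
            ?_ ?_)) (by linarith)
        · rw [Nat.mul_mod, ((mem_Dk (sp_sqf D)).1 hd).2, ← Nat.mul_mod]
          exact (ha i).1
        · rw [Nat.mul_mod, ((mem_Dk (sp_sqf D)).1 hd).2, ← Nat.mul_mod]
          exact (ha i).2
  · rw [← hlaw]
    exact sum_cq

end Pool.Agent.Results.MP_8e0b0b_nt.OutputsInsideDivisors
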